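import Pool.Agent.Q51.EL.Stm

set_option autoImplicit false

/-!
Project EL (helper51), job SIEVE: the large sieve in the ring of integers of a number field.
-/

namespace Pool.Agent.Q247.EL

open Finset NumberField IsDedekindDomain
open Pool.Agent.Q51.EL

theorem coord_bound (L : Type) [Field L] [NumberField L] : ∃ C1 : ℝ, 1 ≤ C1 ∧ ∀ (β : 𝓞 L) (Y : ℝ), 0 ≤ Y →
    (∀ σ : L →+* ℂ, ‖σ (β : L)‖ ≤ Y) → ∀ i, |((RingOfIntegers.basis L).repr β i : ℝ)| ≤ C1 * Y := by
  classical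
  let F : ∀ i : Module.Free.ChooseBasisIndex ℤ (𝓞 L), ((L →+* ℂ) → ℂ) →L[ℂ] ℂ :=
    fun i => LinearMap.toContinuousLinearMap ((canonicalEmbedding.latticeBasis L).coord i)
  refine ⟨1 + ∑ i, ‖F i‖, ?_, ?_⟩
  · have : 0 ≤ ∑ i, ‖F i‖ := sum_nonneg fun i _ => (F i).opNorm_nonneg
    linarith
  intro β Y hY hβ i
  have h1 : ‖canonicalEmbedding L (β : L)‖ ≤ Y := by
    rw [pi_norm_le_iff_of_nonneg hY]
    intro σ
    rw [canonicalEmbedding.apply_at]
    exact hβ σ
  have h2 : F i (canonicalEmbedding L (β : L)) = (((RingOfIntegers.basis L).repr β i : ℤ) : ℂ) := by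
    show (canonicalEmbedding.latticeBasis L).coord i (canonicalEmbedding L (β : L)) = _
    rw [Module.Basis.coord_apply, canonicalEmbedding.integralBasis_repr_apply]
    have h3 := integralBasis_repr_apply L β i
    rw [show ((algebraMap (𝓞 L) L) β : L) = (β : L) from rfl] at h3
    rw [h3]
    simp
  have h3 : |((RingOfIntegers.basis L).repr β i : ℝ)| = ‖F i (canonicalEmbedding L (β : L))‖ := by
    rw [h2]
    simp
  rw [h3]
  have h4 := (F i).le_opNorm (canonicalEmbedding L (β : L))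
  have h5 : ‖F i‖ ≤ ∑ i, ‖F i‖ := single_le_sum (f := fun i => ‖F i‖) (fun i _ => (F i).opNorm_nonneg) (mem_univ i)
  have h6 : 0 ≤ ‖F i‖ := (F i).opNorm_nonneg
  calc ‖F i (canonicalEmbedding L (β : L))‖ ≤ ‖F i‖ * ‖canonicalEmbedding L (β : L)‖ := h4
    _ ≤ ‖F i‖ * Y := mul_le_mul_of_nonneg_left h1 h6
    _ ≤ (1 + ∑ i, ‖F i‖) * Y := mul_le_mul_of_nonneg_right (by linarith) hY

/-- an integral basis indexed by `Fin n` -/
theorem exists_basis (L : Type) [Field L] [NumberField L] :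
    ∃ (b : Module.Basis (Fin (Module.finrank ℚ L)) ℤ (𝓞 L)) (C1 : ℝ), 1 ≤ C1 ∧ ∀ (β : 𝓞 L) (Y : ℝ), 0 ≤ Y →
    (∀ σ : L →+* ℂ, ‖σ (β : L)‖ ≤ Y) → ∀ i, |(b.repr β i : ℝ)| ≤ C1 * Y := by
  obtain ⟨C1, h1, h2⟩ := coord_bound L
  have hc : Fintype.card (Module.Free.ChooseBasisIndex ℤ (𝓞 L)) = Module.finrank ℚ L := by
    rw [← Module.finrank_eq_card_chooseBasisIndex ℤ (𝓞 L), RingOfIntegers.rank L]
  refine ⟨(RingOfIntegers.basis L).reindex (Fintype.equivFinOfCardEq hc), C1, h1, ?_⟩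
  intro β Y hY hβ i
  rw [Module.Basis.repr_reindex_apply]
  exact h2 β Y hY hβ _

theorem finite_box (L : Type) [Field L] [NumberField L] (T : Set (𝓞 L)) (Y : ℝ) :
    {β ∈ T | ∀ σ : L →+* ℂ, ‖σ (β : L)‖ ≤ Y}.Finite := by
  have h := NumberField.Embeddings.finite_of_norm_le L ℂ Y
  have h2 : Set.InjOn (fun β : 𝓞 L => (β : L)) ((fun β : 𝓞 L => (β : L)) ⁻¹'
      {x : L | IsIntegral ℤ x ∧ ∀ φ : L →+* ℂ, ‖φ x‖ ≤ Y}) :=
    (RingOfIntegers.coe_injective).injOn
  refine (h.preimage h2).subset ?_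
  rintro β ⟨_, hβ⟩
  exact ⟨β.isIntegral_coe, hβ⟩

open Classical in
theorem sieve (hL : S_LSV) : S_SIEVE := by
  intro L _ _
  obtain ⟨b, C1, hC1, hb⟩ := exists_basis L
  obtain ⟨n, hn⟩ : ∃ n, n = Module.finrank ℚ L := ⟨_, rfl⟩
  refine ⟨(12 * (2 * C1 + 3)) ^ Module.finrank ℚ L, by positivity, ?_⟩
  intro Y P T η hY hP hη
  have hfin := finite_box L T Y
  refine ⟨hfin, ?_⟩
  obtain ⟨M, hM⟩ : ∃ M, M = ⌈C1 * Y⌉₊ := ⟨_, rfl⟩
  have hY0 : 0 ≤ Y := by linarith
  have hM1 : C1 * Y ≤ M := by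
    rw [hM]
    exact Nat.le_ceil _
  have hM2 : (M : ℝ) ≤ C1 * Y + 1 := by
    rw [hM]
    exact (Nat.ceil_lt_add_one (by positivity)).le
  have hYM : Y ≤ M := by nlinarith
  -- coordinates
  have hco : ∀ β ∈ hfin.toFinset, ∀ i, |b.repr β i| ≤ (M : ℤ) := by
    intro β hβ i
    rw [Set.Finite.mem_toFinset] at hβ
    have h1 := (hb β Y hY0 hβ.2 i).trans hM1
    have h2 : ((|b.repr β i| : ℤ) : ℝ) ≤ ((M : ℤ) : ℝ) := by
      push_cast
      exact h1
    exact_mod_cast h2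
  obtain ⟨z, hz⟩ : ∃ z : 𝓞 L → (Fin (Module.finrank ℚ L) → ℕ),
    z = fun β i => (b.repr β i + M + 1).toNat := ⟨_, rfl⟩
  have hzc : ∀ β ∈ hfin.toFinset, ∀ i, ((z β i : ℕ) : ℤ) = b.repr β i + M + 1 := by
    intro β hβ i
    have h1 := abs_le.1 (hco β hβ i)
    rw [hz]
    exact Int.toNat_of_nonneg (by linarith [h1.1])
  have hinj : Set.InjOn z hfin.toFinset := by
    intro β hβ β' hβ' h
    apply b.repr.injective
    ext i
    have h1 := hzc β hβ i
    have h2 := hzc β' hβ' i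
    rw [h, h2] at h1
    linarith
  have hQ : ⌊Real.sqrt Y⌋₊ ^ 2 ≤ 2 * M + 1 := by
    have h1 : ((⌊Real.sqrt Y⌋₊ : ℕ) : ℝ) ≤ Real.sqrt Y := Nat.floor_le (Real.sqrt_nonneg _)
    have h2 : ((⌊Real.sqrt Y⌋₊ : ℕ) : ℝ) ^ 2 ≤ Y := by
      calc ((⌊Real.sqrt Y⌋₊ : ℕ) : ℝ) ^ 2 ≤ Real.sqrt Y ^ 2 := pow_le_pow_left₀ (Nat.cast_nonneg _) h1 2
        _ = Y := Real.sq_sqrt hY0
    have h3 : (((⌊Real.sqrt Y⌋₊ ^ 2 : ℕ)) : ℝ) ≤ ((2 * M + 1 : ℕ) : ℝ) := by
      push_cast
      linarith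
    exact_mod_cast h3
  have hmain := hL (Module.finrank ℚ L) (2 * M + 1) ⌊Real.sqrt Y⌋₊ (fun _ => 0) P
    (hfin.toFinset.image z) (fun t => (hfin.toFinset.image z).image (fun z i => ((z i : ℕ) : ZMod t))) η
    (by omega) hQ hP
    (by
      intro z' hz' i
      rw [mem_image] at hz'
      obtain ⟨β, hβ, rfl⟩ := hz'
      rw [mem_Ioc]
      have h1 := abs_le.1 (hco β hβ i)
      have h2 := hzc β hβ i
      constructor
      · have : (0 : ℤ) < z β i := by rw [h2]; linarith [h1.1]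
        exact_mod_cast this
      · have : ((z β i : ℕ) : ℤ) ≤ ((0 + (2 * M + 1) : ℕ) : ℤ) := by
          rw [h2]
          push_cast
          linarith [h1.2]
        exact_mod_cast this)
    (fun t ht => (hη t ht).1)
    (by
      intro t ht
      refine le_trans ?_ (hη t ht).2
      rw [Nat.cast_le]
      have htp := hP t ht
      -- the quotient is finite
      have hne : (Ideal.span {(t : 𝓞 L)}) ≠ ⊥ := by
        rw [Ne, Ideal.span_singleton_eq_bot]
        exact_mod_cast htp.ne_zero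
      haveI : Finite (𝓞 L ⧸ Ideal.span {(t : 𝓞 L)}) := Ideal.finiteQuotientOfFreeOfNeBot _ hne
      have hTf : (Ideal.Quotient.mk (Ideal.span {(t : 𝓞 L)}) '' T).Finite := Set.toFinite _
      rw [Set.ncard_eq_toFinset_card _ hTf]
      rw [image_image]
      -- each residue vector comes from an element of `T`
      have hch : ∀ x ∈ hfin.toFinset.image ((fun (z : Fin (Module.finrank ℚ L) → ℕ) i => ((z i : ℕ) : ZMod t)) ∘ z),
          ∃ β ∈ hfin.toFinset, (fun i => ((z β i : ℕ) : ZMod t)) = x := by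
        intro x hx
        rw [mem_image] at hx
        obtain ⟨β, hβ, h⟩ := hx
        exact ⟨β, hβ, h⟩
      choose! g hg1 hg2 using hch
      refine card_le_card_of_injOn (fun x => Ideal.Quotient.mk (Ideal.span {(t : 𝓞 L)}) (g x)) ?_ ?_
      · intro x hx
        have h1 := hg1 x hx
        rw [Set.Finite.mem_toFinset] at h1
        rw [Finset.mem_coe, Set.Finite.mem_toFinset]
        exact ⟨g x, h1.1, rfl⟩
      · intro x hx y hy hxy
        rw [← hg2 x hx, ← hg2 y hy]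
        have h1 : g x - g y ∈ Ideal.span {(t : 𝓞 L)} := (Ideal.Quotient.eq).1 hxy
        rw [Ideal.mem_span_singleton] at h1
        obtain ⟨w, hw⟩ := h1
        funext i
        have h2 := hzc (g x) (hg1 x hx) i
        have h3 := hzc (g y) (hg1 y hy) i
        have h4 : b.repr (g x) i - b.repr (g y) i = t * b.repr w i := by
          have h5 : b.repr (g x - g y) i = b.repr ((t : 𝓞 L) * w) i := by rw [hw]
          rw [map_sub, Finsupp.sub_apply] at h5
          rw [h5]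
          have h6 : ((t : 𝓞 L) * w) = (t : ℤ) • w := by
            rw [zsmul_eq_mul]
            push_cast
            rfl
          rw [h6, map_smul, Finsupp.smul_apply, smul_eq_mul]
        have h5 : (((z (g x) i : ℕ) : ℤ) : ZMod t) = (((z (g y) i : ℕ) : ℤ) : ZMod t) := by
          rw [ZMod.intCast_eq_intCast_iff_dvd_sub]
          refine ⟨-(b.repr w i), ?_⟩
          rw [h2, h3]
          linarith
        push_cast at h5
        exact h5)
    (by
      intro z' hz' t _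
      exact mem_image_of_mem _ hz')
  -- conclusion
  have hcard : (hfin.toFinset.image z).card = {β ∈ T | ∀ σ : L →+* ℂ, ‖σ (β : L)‖ ≤ Y}.ncard := by
    rw [card_image_of_injOn hinj, Set.ncard_eq_toFinset_card _ hfin]
  rw [hcard] at hmain
  have hfil : P.powerset.filter (fun D => (((∏ t ∈ D, t : ℕ) : ℝ)) ^ 2 ≤ Y) =
      P.powerset.filter (fun D => ∏ t ∈ D, t ≤ ⌊Real.sqrt Y⌋₊) := by
    refine filter_congr fun D _ => ?_
    rw [Nat.le_floor_iff (Real.sqrt_nonneg _), Real.le_sqrt (Nat.cast_nonneg _) hY0]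
  rw [hfil]
  refine hmain.trans ?_
  rw [← mul_pow]
  refine pow_le_pow_left₀ (by positivity) ?_ _
  push_cast
  nlinarith

end Pool.Agent.Q247.EL
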