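import Pool.Agent.Q51.EL.Stm

set_option autoImplicit false

/-!
Project EL (helper51), job CNT, first part: finite rings and the primes above `l`.
-/

namespace Pool.Agent.Q247.EL

open Finset NumberField IsDedekindDomain
open Pool.Agent.Q51.EL

/-- integers prime to `l` are squares or `u` times a square -/
theorem eps (l : ℕ) (hl : l.Prime) (h2 : l ≠ 2) : ∃ u : ℤ, ¬ (l : ℤ) ∣ u ∧ ∀ c : ℤ, ¬ (l : ℤ) ∣ c →
    ∃ e d : ℤ, (e = 1 ∨ e = u) ∧ ¬ (l : ℤ) ∣ e ∧ ¬ (l : ℤ) ∣ d ∧ (l : ℤ) ∣ c - e * d ^ 2 := by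
  classical
  haveI : Fact l.Prime := ⟨hl⟩
  have hc : ringChar (ZMod l) ≠ 2 := by rwa [ZMod.ringChar_zmod_n]
  obtain ⟨a, ha⟩ := FiniteField.exists_nonsquare hc
  obtain ⟨u, hu⟩ := ZMod.intCast_surjective a
  have hz : ∀ z : ℤ, ((z : ZMod l) = 0) ↔ (l : ℤ) ∣ z := fun z => ZMod.intCast_zmod_eq_zero_iff_dvd z l
  have ha0 : a ≠ 0 := by
    rintro rfl
    exact ha (IsSquare.zero)
  have hu0 : ¬ (l : ℤ) ∣ u := by
    rw [← hz, hu]
    exact ha0
  refine ⟨u, hu0, fun c hc0 => ?_⟩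
  have hcz : (c : ZMod l) ≠ 0 := by
    rw [Ne, hz]
    exact hc0
  by_cases hs : IsSquare (c : ZMod l)
  · obtain ⟨r, hr⟩ := hs
    obtain ⟨d, hd⟩ := ZMod.intCast_surjective r
    refine ⟨1, d, Or.inl rfl, ?_, ?_, ?_⟩
    · rw [← hz]
      push_cast
      exact one_ne_zero
    · rw [← hz, hd]
      rintro rfl
      rw [mul_zero] at hr
      exact hcz hr
    · rw [← hz]
      push_cast
      rw [hd, hr]
      ring
  · have h1 : quadraticChar (ZMod l) (c : ZMod l) = -1 := quadraticChar_neg_one_iff_not_isSquare.2 hs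
    have h2 : quadraticChar (ZMod l) a = -1 := quadraticChar_neg_one_iff_not_isSquare.2 ha
    have h3 : quadraticChar (ZMod l) (a * (c : ZMod l)) = 1 := by
      rw [map_mul, h1, h2]
      norm_num
    have h4 : IsSquare (a * (c : ZMod l)) := (quadraticChar_one_iff_isSquare (mul_ne_zero ha0 hcz)).1 h3
    obtain ⟨r, hr⟩ := h4
    obtain ⟨d, hd⟩ := ZMod.intCast_surjective (r * a⁻¹)
    have hd2 : (c : ZMod l) = a * (r * a⁻¹) ^ 2 := by
      have : a * (r * a⁻¹) ^ 2 = (r * r) * (a * (a⁻¹ * a⁻¹)) := by ring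
      rw [this, ← hr]
      field_simp
    refine ⟨u, d, Or.inr rfl, hu0, ?_, ?_⟩
    · rw [← hz, hd]
      intro h0
      rw [h0] at hd2
      apply hcz
      rw [hd2]
      ring
    · rw [← hz]
      push_cast
      rw [hu, hd, hd2]
      ring

/-- the number of nonzero squares -/
theorem card_sq (k : Type) [CommRing k] [IsDomain k] [Finite k] (h2 : (2 : k) ≠ 0) :
    ({x : k | x ≠ 0 ∧ ∃ s, x = s * s}.ncard : ℝ) ≤ (Nat.card k : ℝ) / 2 := by
  classical
  haveI := Fintype.ofFinite k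
  have h1 : ({x : k | x ≠ 0 ∧ ∃ s, x = s * s} : Set k) =
      (((univ : Finset k).filter (fun x => x ≠ 0)).image (fun s => s * s) : Finset k) := by
    ext x
    rw [Finset.coe_image]
    constructor
    · rintro ⟨hx, s, rfl⟩
      refine ⟨s, ?_, rfl⟩
      rw [Finset.mem_coe, mem_filter]
      exact ⟨mem_univ _, fun h => hx (by rw [h, mul_zero])⟩
    · rintro ⟨s, hs, rfl⟩
      rw [Finset.mem_coe, mem_filter] at hs
      exact ⟨mul_ne_zero hs.2 hs.2, s, rfl⟩
  rw [h1, Set.ncard_coe_finset]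
  have h3 := mul_card_image_le_card (f := fun s : k => s * s) ((univ : Finset k).filter (fun x => x ≠ 0)) 2 (by
    intro b hb
    rw [mem_image] at hb
    obtain ⟨s, hs, rfl⟩ := hb
    rw [mem_filter] at hs
    have h4 : ({s, -s} : Finset k) ⊆ {a ∈ (univ : Finset k).filter (fun x => x ≠ 0) | a * a = s * s} := by
      intro t ht
      rw [mem_insert, mem_singleton] at ht
      rw [mem_filter, mem_filter]
      rcases ht with rfl | rfl
      · exact ⟨⟨mem_univ _, hs.2⟩, rfl⟩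
      · exact ⟨⟨mem_univ _, neg_ne_zero.2 hs.2⟩, by ring⟩
    have h5 : s ≠ -s := by
      intro h
      have h6 : 2 * s = 0 := by
        have : s + s = 0 := by
          nth_rewrite 2 [h]
          ring
        rw [two_mul, this]
      rcases mul_eq_zero.1 h6 with h7 | h7
      · exact h2 h7
      · exact hs.2 h7
    calc 2 = ({s, -s} : Finset k).card := (card_pair h5).symm
      _ ≤ _ := card_le_card h4)
  have h4 : ((univ : Finset k).filter (fun x => x ≠ 0)).card ≤ Nat.card k := by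
    rw [Nat.card_eq_fintype_card]
    exact card_filter_le _ _
  have h5 : 2 * (((univ : Finset k).filter (fun x => x ≠ 0)).image (fun s => s * s)).card ≤ Nat.card k := h3.trans h4
  have h6 : (2 : ℝ) * ((((univ : Finset k).filter (fun x => x ≠ 0)).image (fun s => s * s)).card : ℝ) ≤ Nat.card k := by
    exact_mod_cast h5
  linarith

section

variable (L : Type) [Field L] [NumberField L] (l : ℕ)

/-- the primes above `l` -/
abbrev VV := {v : HeightOneSpectrum (𝓞 L) // Abv v l}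

variable {l}

theorem span_ne_bot (hl : l.Prime) : Ideal.span {(l : 𝓞 L)} ≠ ⊥ := by
  rw [Ne, Ideal.span_singleton_eq_bot]
  exact_mod_cast hl.ne_zero

theorem finite_VV (hl : l.Prime) : Finite (VV L l) := by
  have h := Ideal.finite_factors (span_ne_bot L hl)
  refine Set.Finite.to_subtype (s := {v : HeightOneSpectrum (𝓞 L) | Abv v l}) (h.subset ?_)
  intro v hv
  rw [Set.mem_setOf_eq, Ideal.dvd_iff_le, Ideal.span_singleton_le_iff_mem]
  exact hv

theorem iInf_VV (hl : l.Prime) (hsq : Squarefree (Ideal.span {(l : 𝓞 L)})) :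
    (⨅ v : VV L l, v.1.asIdeal) = Ideal.span {(l : 𝓞 L)} := by
  apply le_antisymm
  · intro β hβ
    rw [Ideal.mem_iInf] at hβ
    have h1 : β ∈ (Ideal.span {(l : 𝓞 L)}).radical := by
      rw [Ideal.radical_eq_sInf, Submodule.mem_sInf]
      rintro J ⟨hJ1, hJ2⟩
      have hlJ : (l : 𝓞 L) ∈ J := hJ1 (Ideal.mem_span_singleton_self _)
      have hJ0 : J ≠ ⊥ := by
        rintro rfl
        rw [Ideal.mem_bot] at hlJ
        exact hl.ne_zero (by exact_mod_cast hlJ)
      exact hβ ⟨⟨J, hJ2, hJ0⟩, hlJ⟩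
    obtain ⟨m, hm⟩ := h1
    have h2 : Ideal.span {(l : 𝓞 L)} ∣ (Ideal.span {β}) ^ m := by
      rw [Ideal.dvd_iff_le, Ideal.span_singleton_pow, Ideal.span_singleton_le_iff_mem]
      exact hm
    have h3 := (Squarefree.isRadical hsq) m (Ideal.span {β}) h2
    rw [Ideal.dvd_iff_le, Ideal.span_singleton_le_iff_mem] at h3
    exact h3
  · refine le_iInf fun v => ?_
    rw [Ideal.span_singleton_le_iff_mem]
    exact v.2

theorem pairwise_VV : Pairwise (Function.onFun IsCoprime (fun v : VV L l => v.1.asIdeal)) := by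
  intro v w hvw
  have h : v.1.asIdeal ≠ w.1.asIdeal := by
    intro h
    exact hvw (Subtype.ext (HeightOneSpectrum.ext h))
  haveI := v.1.isMaximal
  haveI := w.1.isMaximal
  exact Ideal.isCoprime_of_isMaximal h

theorem prod_card (hl : l.Prime) (hsq : Squarefree (Ideal.span {(l : 𝓞 L)})) [Fintype (VV L l)] :
    ∏ v : VV L l, Nat.card (𝓞 L ⧸ v.1.asIdeal) = l ^ Module.finrank ℚ L := by
  have e := Ideal.quotientInfRingEquivPiQuotient (fun v : VV L l => v.1.asIdeal) (pairwise_VV L)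
  have h1 : Nat.card (𝓞 L ⧸ ⨅ v : VV L l, v.1.asIdeal) = ∏ v : VV L l, Nat.card (𝓞 L ⧸ v.1.asIdeal) := by
    rw [Nat.card_congr e.toEquiv, Nat.card_pi]
  rw [← h1, iInf_VV L hl hsq]
  have h2 : Nat.card (𝓞 L ⧸ Ideal.span {(l : 𝓞 L)}) = Ideal.absNorm (Ideal.span {(l : 𝓞 L)}) := by
    rw [Ideal.absNorm_apply, Submodule.cardQuot_apply]
  rw [h2, Ideal.absNorm_span_natCast, RingOfIntegers.rank]

theorem le_card (hl : l.Prime) (v : VV L l) : l ≤ Nat.card (𝓞 L ⧸ v.1.asIdeal) := by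
  have h1 : Ideal.absNorm v.1.asIdeal = Nat.card (𝓞 L ⧸ v.1.asIdeal) := by
    rw [Ideal.absNorm_apply, Submodule.cardQuot_apply]
  have h2 : Ideal.absNorm v.1.asIdeal ∣ l ^ Module.finrank ℤ (𝓞 L) := by
    rw [← Ideal.absNorm_span_natCast]
    apply Ideal.absNorm_dvd_absNorm_of_le
    rw [Ideal.span_singleton_le_iff_mem]
    exact v.2
  rw [Nat.dvd_prime_pow hl] at h2
  obtain ⟨k, _, hk⟩ := h2
  rw [← h1, hk]
  have hk0 : k ≠ 0 := by
    rintro rfl
    rw [pow_zero, Ideal.absNorm_eq_one_iff] at hk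
    exact v.1.isPrime.ne_top hk
  exact Nat.le_self_pow hk0 l

end

end Pool.Agent.Q247.EL
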