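import Mathlib

/-! A countable family of holomorphic functions on discs which is closed under the operations of the
exponential-logarithmic towers. -/

set_option autoImplicit false

open Set Filter Topology

namespace Q247.EL

/-- The ring of holomorphic functions on `U`. -/
def A (U : Set ℂ) : Subring (U → ℂ) where
  carrier := {f | ∃ F : ℂ → ℂ, DifferentiableOn ℂ F U ∧ ∀ z : U, f z = F z}
  mul_mem' := by
    rintro f g ⟨F, hF, hF'⟩ ⟨G, hG, hG'⟩
    exact ⟨fun z => F z * G z, hF.mul hG, fun z => by rw [Pi.mul_apply, hF', hG']⟩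
  one_mem' := ⟨fun _ => 1, differentiableOn_const _, fun _ => rfl⟩
  add_mem' := by
    rintro f g ⟨F, hF, hF'⟩ ⟨G, hG, hG'⟩
    exact ⟨fun z => F z + G z, hF.add hG, fun z => by rw [Pi.add_apply, hF', hG']⟩
  zero_mem' := ⟨fun _ => 0, differentiableOn_const _, fun _ => rfl⟩
  neg_mem' := by
    rintro f ⟨F, hF, hF'⟩
    exact ⟨fun z => -F z, hF.neg, fun z => by rw [Pi.neg_apply, hF']⟩

/-- The constant functions. -/
def cst (U : Set ℂ) (a : ℂ) : A U := ⟨fun _ => a, fun _ => a, differentiableOn_const _, fun _ => rfl⟩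

/-- Rational discs. -/
def Bl (i : ℚ × ℚ × ℚ) : Set ℂ := Metric.ball (⟨i.1, i.2.1⟩ : ℂ) i.2.2

/-- Indices: nonempty rational discs not containing `0`. -/
abbrev Idx := {i : ℚ × ℚ × ℚ // 0 < i.2.2 ∧ (0 : ℂ) ∉ Bl i}

/-- The disc. -/
def D (i : Idx) : Set ℂ := Bl i.1

/-- Its centre. -/
def ctr (i : Idx) : ℂ := ⟨i.1.1, i.1.2.1⟩

theorem ctr_mem (i : Idx) : ctr i ∈ D i := by
  refine Metric.mem_ball_self ?_
  exact_mod_cast i.2.1

theorem isOpen_D (i : Idx) : IsOpen (D i) := Metric.isOpen_ball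

theorem preconn_D (i : Idx) : IsPreconnected (D i) := (convex_ball _ _).isPreconnected

theorem ne_zero_of_mem (i : Idx) {z : ℂ} (hz : z ∈ D i) : z ≠ 0 := by
  rintro rfl
  exact i.2.2 hz

theorem exists_idx (z : ℂ) (hz : z ≠ 0) (U : Set ℂ) (hU : U ∈ 𝓝 z) : ∃ i : Idx, z ∈ D i ∧ D i ⊆ U := by
  have h1 : U ∩ {0}ᶜ ∈ 𝓝 z := inter_mem hU (isOpen_compl_singleton.mem_nhds hz)
  obtain ⟨ε, hε, hεU⟩ := Metric.mem_nhds_iff.1 h1
  obtain ⟨r, hr0, hr⟩ : ∃ r : ℚ, (0 : ℝ) < r ∧ (r : ℝ) < ε / 2 := exists_rat_btwn (by positivity)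
  obtain ⟨p, hp1, hp2⟩ : ∃ p : ℚ, z.re - r / 2 < p ∧ (p : ℝ) < z.re + r / 2 :=
    exists_rat_btwn (by linarith)
  obtain ⟨q, hq1, hq2⟩ : ∃ q : ℚ, z.im - r / 2 < q ∧ (q : ℝ) < z.im + r / 2 :=
    exists_rat_btwn (by linarith)
  have hdist : dist z (⟨p, q⟩ : ℂ) < r := by
    rw [Complex.dist_eq]
    refine (Complex.norm_le_abs_re_add_abs_im _).trans_lt ?_
    simp only [Complex.sub_re, Complex.sub_im]
    have h2 : |z.re - p| < r / 2 := by rw [abs_lt]; constructor <;> linarith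
    have h3 : |z.im - q| < r / 2 := by rw [abs_lt]; constructor <;> linarith
    linarith
  have hsub : Bl (p, q, r) ⊆ U ∩ {0}ᶜ := by
    intro w hw
    apply hεU
    rw [Metric.mem_ball]
    have h2 : dist w (⟨p, q⟩ : ℂ) < r := hw
    calc dist w z ≤ dist w (⟨p, q⟩ : ℂ) + dist (⟨p, q⟩ : ℂ) z := dist_triangle _ _ _
      _ < r + r := by rw [dist_comm _ z]; linarith
      _ < ε := by linarith
  have hz0 : (0 : ℂ) ∉ Bl (p, q, r) := fun h => (hsub h).2 rfl
  refine ⟨⟨(p, q, r), by exact_mod_cast hr0, hz0⟩, ?_, fun w hw => (hsub hw).1⟩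
  exact Metric.mem_ball.2 hdist

theorem exists_idx_le (z : ℂ) (i j : Idx) (hi : z ∈ D i) (hj : z ∈ D j) :
    ∃ k : Idx, z ∈ D k ∧ D k ⊆ D i ∧ D k ⊆ D j := by
  obtain ⟨k, hk, hk2⟩ := exists_idx z (ne_zero_of_mem i hi) (D i ∩ D j)
    (inter_mem ((isOpen_D i).mem_nhds hi) ((isOpen_D j).mem_nhds hj))
  exact ⟨k, hk, fun w hw => (hk2 hw).1, fun w hw => (hk2 hw).2⟩

instance (i : Idx) : Nontrivial (A (D i)) := by
  refine ⟨0, 1, fun h => ?_⟩
  have := congrFun (congrArg Subtype.val h) ⟨ctr i, ctr_mem i⟩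
  exact zero_ne_one this

instance (i : Idx) : NoZeroDivisors (A (D i)) := by
  refine ⟨fun {f g} hfg => ?_⟩
  obtain ⟨F, hF, hF'⟩ := f.2
  obtain ⟨G, hG, hG'⟩ := g.2
  have h1 : ∀ z ∈ D i, F z * G z = 0 := by
    intro z hz
    have := congrFun (congrArg Subtype.val hfg) ⟨z, hz⟩
    have h2 : f.1 ⟨z, hz⟩ * g.1 ⟨z, hz⟩ = 0 := this
    rwa [hF', hG'] at h2
  rcases (hF.analyticOnNhd (isOpen_D i)).eq_zero_or_eq_zero_of_mul_eq_zero
    (hG.analyticOnNhd (isOpen_D i)) h1 (preconn_D i) with h | h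
  · left
    apply Subtype.ext
    funext z
    rw [hF', h z z.2]
    rfl
  · right
    apply Subtype.ext
    funext z
    rw [hG', h z z.2]
    rfl

instance (i : Idx) : IsDomain (A (D i)) := NoZeroDivisors.to_isDomain _

/-- One step of the construction. -/
def Step (Φ : (i : Idx) → Set (A (D i))) (i : Idx) : Set (A (D i)) :=
  {f | f ∈ Φ i} ∪
  ({f | ∃ j : Idx, ∃ h : D i ⊆ D j, ∃ g ∈ Φ j, ∀ z : D i, f.1 z = g.1 ⟨z, h z.2⟩} ∪
  ({f | ∃ g ∈ Φ i, ∃ h ∈ Φ i, f = g + h} ∪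
  ({f | ∃ g ∈ Φ i, ∃ h ∈ Φ i, f = g * h} ∪
  ({f | ∃ g ∈ Φ i, ∀ z : D i, f.1 z = Complex.exp (z * g.1 z)} ∪
  ({f | ∃ g ∈ Φ i, ∀ z : D i, Complex.exp (z * f.1 z) = g.1 z} ∪
  {f | ∃ p : Polynomial (A (D i)), p ≠ 0 ∧ (∀ k, p.coeff k ∈ Φ i) ∧ p.eval f = 0})))))

theorem countable_log (i : Idx) (g : A (D i)) :
    {f : A (D i) | ∀ z : D i, Complex.exp (z * f.1 z) = g.1 z}.Countable := by
  have hc0 : ctr i ≠ 0 := ne_zero_of_mem i (ctr_mem i)
  have h1 : {w : ℂ | Complex.exp (ctr i * w) = g.1 ⟨ctr i, ctr_mem i⟩}.Countable := by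
    rcases Set.eq_empty_or_nonempty {w : ℂ | Complex.exp (ctr i * w) = g.1 ⟨ctr i, ctr_mem i⟩}
      with h | ⟨w₀, hw₀⟩
    · rw [h]; exact countable_empty
    · refine (countable_range (fun n : ℤ => w₀ + n * (2 * Real.pi * Complex.I) / ctr i)).mono ?_
      intro w hw
      have h2 : Complex.exp (ctr i * w) = Complex.exp (ctr i * w₀) := by
        rw [mem_ofPred_eq] at hw hw₀
        rw [hw, hw₀]
      obtain ⟨n, hn⟩ := Complex.exp_eq_exp_iff_exists_int.1 h2
      refine ⟨n, ?_⟩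
      simp only
      field_simp
      linear_combination -hn
  refine MapsTo.countable_of_injOn (f := fun f : A (D i) => f.1 ⟨ctr i, ctr_mem i⟩)
    (t := {w : ℂ | Complex.exp (ctr i * w) = g.1 ⟨ctr i, ctr_mem i⟩}) ?_ ?_ h1
  · intro f hf
    exact hf ⟨ctr i, ctr_mem i⟩
  · intro f hf f' hf' he
    simp only at he
    obtain ⟨F, hF, hFe⟩ := f.2
    obtain ⟨G, hG, hGe⟩ := f'.2
    have hFc : F (ctr i) = G (ctr i) := by
      rw [← hFe ⟨ctr i, ctr_mem i⟩, ← hGe ⟨ctr i, ctr_mem i⟩]; exact he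
    set u : ℂ → ℂ := fun z => z * (F z - G z) with hu
    have hud : DifferentiableOn ℂ u (D i) := differentiableOn_id.mul (hF.sub hG)
    have hexp : ∀ z ∈ D i, Complex.exp (u z) = 1 := by
      intro z hz
      have h2 := hf ⟨z, hz⟩
      have h3 := hf' ⟨z, hz⟩
      rw [hFe] at h2
      rw [hGe] at h3
      have h4 : Complex.exp (z * F z) = Complex.exp (z * G z) := by
        simp only at h2 h3
        rw [h2, h3]
      rw [hu]
      simp only
      rw [mul_sub, Complex.exp_sub, h4, div_self (Complex.exp_ne_zero _)]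
    have hu0 : u (ctr i) = 0 := by rw [hu]; simp only; rw [hFc, sub_self, mul_zero]
    have hcont : ContinuousAt u (ctr i) :=
      (hud.differentiableAt ((isOpen_D i).mem_nhds (ctr_mem i))).continuousAt
    have hev : ∀ᶠ z in 𝓝 (ctr i), u z = 0 := by
      have h2 : ∀ᶠ z in 𝓝 (ctr i), ‖u z‖ < 1 := by
        have : Tendsto (fun z => ‖u z‖) (𝓝 (ctr i)) (𝓝 ‖u (ctr i)‖) := hcont.norm
        rw [hu0, norm_zero] at this
        exact this.eventually (gt_mem_nhds one_pos)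
      filter_upwards [h2, (isOpen_D i).mem_nhds (ctr_mem i)] with z hz hzD
      obtain ⟨n, hn⟩ := Complex.exp_eq_one_iff.1 (hexp z hzD)
      have h3 : ‖u z‖ = |(n : ℝ)| * (2 * Real.pi) := by
        rw [hn, norm_mul, norm_mul, norm_mul, Complex.norm_I, Complex.norm_intCast,
          Complex.norm_real, Real.norm_eq_abs, abs_of_pos Real.pi_pos]
        simp
      rcases eq_or_ne n 0 with h4 | h4
      · rw [hn, h4]; simp
      · exfalso
        have h5 : (1 : ℝ) ≤ |(n : ℝ)| := by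
          have := Int.one_le_abs h4
          exact_mod_cast this
        have := Real.pi_gt_three
        nlinarith
    have hzero := (hud.analyticOnNhd (isOpen_D i)).eqOn_zero_of_preconnected_of_eventuallyEq_zero
      (preconn_D i) (ctr_mem i) hev
    apply Subtype.ext
    funext z
    have h2 : u z = 0 := hzero z.2
    rw [hu] at h2
    rcases mul_eq_zero.1 h2 with h3 | h3
    · exact absurd h3 (ne_zero_of_mem i z.2)
    · rw [hFe, hGe, sub_eq_zero.1 h3]

theorem countable_poly (i : Idx) (S : Set (A (D i))) (hS : S.Countable) :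
    {p : Polynomial (A (D i)) | ∀ k, p.coeff k ∈ S}.Countable := by
  classical
  have : Countable S := hS.to_subtype
  refine (countable_range (fun c : (Σ n : ℕ, (Fin n → S)) =>
    ∑ k : Fin c.1, Polynomial.C (c.2 k : A (D i)) * Polynomial.X ^ (k : ℕ))).mono ?_
  intro p hp
  refine ⟨⟨p.natDegree + 1, fun k => ⟨p.coeff k, hp k⟩⟩, ?_⟩
  simp only
  have h := Polynomial.as_sum_range_C_mul_X_pow p
  rw [Finset.sum_range] at h
  exact h.symm

theorem countable_step (Φ : (i : Idx) → Set (A (D i))) (hΦ : ∀ i, (Φ i).Countable) (i : Idx) :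
    (Step Φ i).Countable := by
  have hS := hΦ i
  refine (hS.mono fun f hf => hf).union (Countable.union ?_ (Countable.union ?_ (Countable.union ?_
    (Countable.union ?_ (Countable.union ?_ ?_)))))
  · have : {f : A (D i) | ∃ j : Idx, ∃ h : D i ⊆ D j, ∃ g ∈ Φ j,
        ∀ z : D i, f.1 z = g.1 ⟨z, h z.2⟩} ⊆
        ⋃ j : Idx, ⋃ h : D i ⊆ D j, ⋃ g ∈ Φ j, {f | ∀ z : D i, f.1 z = g.1 ⟨z, h z.2⟩} := by
      rintro f ⟨j, h, g, hg, hf⟩
      simp only [mem_iUnion]
      exact ⟨j, h, g, hg, hf⟩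
    refine Countable.mono this ?_
    refine countable_iUnion fun j => countable_iUnion fun h => (hΦ j).biUnion fun g _ => ?_
    refine Set.Subsingleton.countable ?_
    intro f hf f' hf'
    apply Subtype.ext
    funext z
    rw [hf, hf']
  · have : {f : A (D i) | ∃ g ∈ Φ i, ∃ h ∈ Φ i, f = g + h} ⊆ image2 (fun g h => g + h) (Φ i) (Φ i) := by
      rintro f ⟨g, hg, h, hh, rfl⟩
      exact ⟨g, hg, h, hh, rfl⟩
    exact (hS.image2 hS _).mono this
  · have : {f : A (D i) | ∃ g ∈ Φ i, ∃ h ∈ Φ i, f = g * h} ⊆ image2 (fun g h => g * h) (Φ i) (Φ i) := by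
      rintro f ⟨g, hg, h, hh, rfl⟩
      exact ⟨g, hg, h, hh, rfl⟩
    exact (hS.image2 hS _).mono this
  · have : {f : A (D i) | ∃ g ∈ Φ i, ∀ z : D i, f.1 z = Complex.exp (z * g.1 z)} ⊆
        ⋃ g ∈ Φ i, {f | ∀ z : D i, f.1 z = Complex.exp (z * g.1 z)} := by
      rintro f ⟨g, hg, hf⟩
      simp only [mem_iUnion]
      exact ⟨g, hg, hf⟩
    refine Countable.mono this (hS.biUnion fun g _ => Set.Subsingleton.countable ?_)
    intro f hf f' hf'
    apply Subtype.ext
    funext z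
    rw [hf, hf']
  · have : {f : A (D i) | ∃ g ∈ Φ i, ∀ z : D i, Complex.exp (z * f.1 z) = g.1 z} ⊆
        ⋃ g ∈ Φ i, {f | ∀ z : D i, Complex.exp (z * f.1 z) = g.1 z} := by
      rintro f ⟨g, hg, hf⟩
      simp only [mem_iUnion]
      exact ⟨g, hg, hf⟩
    exact Countable.mono this (hS.biUnion fun g _ => countable_log i g)
  · have : {f : A (D i) | ∃ p : Polynomial (A (D i)), p ≠ 0 ∧ (∀ k, p.coeff k ∈ Φ i) ∧
        p.eval f = 0} ⊆ ⋃ p ∈ {p : Polynomial (A (D i)) | ∀ k, p.coeff k ∈ Φ i},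
          {f | p ≠ 0 ∧ p.eval f = 0} := by
      rintro f ⟨p, hp0, hp, hf⟩
      simp only [mem_iUnion]
      exact ⟨p, hp, hp0, hf⟩
    refine Countable.mono this ((countable_poly i _ hS).biUnion fun p _ => ?_)
    by_cases hp : p = 0
    · have : {f : A (D i) | p ≠ 0 ∧ p.eval f = 0} = ∅ := by
        ext f; simp [hp]
      rw [this]; exact countable_empty
    · refine Set.Finite.countable ((Polynomial.finite_setOfPred_isRoot hp).subset ?_)
      rintro f ⟨-, hf⟩
      exact hf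

/-- The countable family. -/
def Phi : ℕ → (i : Idx) → Set (A (D i))
  | 0, i => Set.range fun q : ℚ => cst (D i) (q : ℂ)
  | n + 1, i => Step (Phi n) i

theorem countable_Phi (n : ℕ) (i : Idx) : (Phi n i).Countable := by
  induction n generalizing i with
  | zero => exact countable_range _
  | succ n ih => exact countable_step _ ih i

theorem Phi_mono {m n : ℕ} (h : m ≤ n) (i : Idx) : Phi m i ⊆ Phi n i := by
  induction h with
  | refl => exact Subset.rfl
  | step _ ih => exact ih.trans fun f hf => Or.inl hf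

end Q247.EL
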