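import Pool.Agent.Q247.EL.Germs

/-! The values at `l` of the functions of the countable family form an algebraically closed field
which is closed under `x ↦ exp (l x)` and its inverse. -/

set_option autoImplicit false

open Set Filter Topology Polynomial

namespace Q247.EL

/-- The values at `l`. -/
def V (l : ℂ) : Set ℂ := {x | ∃ n, ∃ i : Idx, ∃ h : l ∈ D i, ∃ g ∈ Phi n i, g.1 ⟨l, h⟩ = x}

theorem countable_V (l : ℂ) : (V l).Countable := by
  have : V l ⊆ ⋃ n : ℕ, ⋃ i : Idx, ⋃ h : l ∈ D i, ⋃ g ∈ Phi n i, {g.1 ⟨l, h⟩} := by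
    rintro x ⟨n, i, h, g, hg, rfl⟩
    simp only [mem_iUnion]
    exact ⟨n, i, h, g, hg, rfl⟩
  refine Countable.mono this ?_
  exact countable_iUnion fun n => countable_iUnion fun i => countable_iUnion fun h =>
    (countable_Phi n i).biUnion fun g _ => countable_singleton _

theorem rat_mem (l : ℂ) (hl : l ≠ 0) (q : ℚ) : (q : ℂ) ∈ V l := by
  obtain ⟨i, hi, -⟩ := exists_idx l hl univ univ_mem
  exact ⟨0, i, hi, cst (D i) q, ⟨q, rfl⟩, rfl⟩

/-- Restriction to a smaller disc. -/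
theorem restr (n : ℕ) (i j : Idx) (h : D i ⊆ D j) (g : A (D j)) (hg : g ∈ Phi n j) :
    ∃ f ∈ Phi (n + 1) i, ∀ z : D i, f.1 z = g.1 ⟨z, h z.2⟩ := by
  obtain ⟨G, hG, hG'⟩ := g.2
  refine ⟨⟨fun z => g.1 ⟨z, h z.2⟩, G, hG.mono h, fun z => hG' _⟩, ?_, fun z => rfl⟩
  exact Or.inr (Or.inl ⟨j, h, g, hg, fun z => rfl⟩)

/-- Finitely many values come from the same disc. -/
theorem common (l : ℂ) (hl : l ≠ 0) (d : ℕ) (x : ℕ → ℂ) (hx : ∀ t < d, x t ∈ V l) :
    ∃ n, ∃ i : Idx, ∃ h : l ∈ D i, ∀ t < d, ∃ g ∈ Phi n i, g.1 ⟨l, h⟩ = x t := by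
  induction d with
  | zero =>
    obtain ⟨i, hi, -⟩ := exists_idx l hl univ univ_mem
    exact ⟨0, i, hi, fun t ht => absurd ht (Nat.not_lt_zero t)⟩
  | succ d ih =>
    obtain ⟨n, i, hi, hd⟩ := ih fun t ht => hx t (by omega)
    obtain ⟨m, j, hj, g, hg, hgx⟩ := hx d (Nat.lt_succ_self d)
    obtain ⟨k, hk, hki, hkj⟩ := exists_idx_le l i j hi hj
    refine ⟨max n m + 1, k, hk, fun t ht => ?_⟩
    rcases Nat.lt_succ_iff_lt_or_eq.1 ht with h | h
    · obtain ⟨f, hf, hfx⟩ := hd t h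
      obtain ⟨f', hf', hf'x⟩ := restr (max n m) k i hki f (Phi_mono (le_max_left _ _) i hf)
      exact ⟨f', hf', by rw [hf'x]; exact hfx⟩
    · subst h
      obtain ⟨f', hf', hf'x⟩ := restr (max n m) k j hkj g (Phi_mono (le_max_right _ _) j hg)
      exact ⟨f', hf', by rw [hf'x]; exact hgx⟩

theorem add_mem (l : ℂ) (hl : l ≠ 0) (x y : ℂ) (hx : x ∈ V l) (hy : y ∈ V l) : x + y ∈ V l := by
  obtain ⟨n, i, h, hh⟩ := common l hl 2 (fun t => if t = 0 then x else y) (by
    intro t _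
    split_ifs
    · exact hx
    · exact hy)
  obtain ⟨f, hf, hfx⟩ := hh 0 (by norm_num)
  obtain ⟨g, hg, hgx⟩ := hh 1 (by norm_num)
  simp only [if_true] at hfx
  simp only [one_ne_zero, if_false] at hgx
  refine ⟨n + 1, i, h, f + g, Or.inr (Or.inr (Or.inl ⟨f, hf, g, hg, rfl⟩)), ?_⟩
  show f.1 ⟨l, h⟩ + g.1 ⟨l, h⟩ = x + y
  rw [hfx, hgx]

theorem mul_mem (l : ℂ) (hl : l ≠ 0) (x y : ℂ) (hx : x ∈ V l) (hy : y ∈ V l) : x * y ∈ V l := by
  obtain ⟨n, i, h, hh⟩ := common l hl 2 (fun t => if t = 0 then x else y) (by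
    intro t _
    split_ifs
    · exact hx
    · exact hy)
  obtain ⟨f, hf, hfx⟩ := hh 0 (by norm_num)
  obtain ⟨g, hg, hgx⟩ := hh 1 (by norm_num)
  simp only [if_true] at hfx
  simp only [one_ne_zero, if_false] at hgx
  refine ⟨n + 1, i, h, f * g, Or.inr (Or.inr (Or.inr (Or.inl ⟨f, hf, g, hg, rfl⟩))), ?_⟩
  show f.1 ⟨l, h⟩ * g.1 ⟨l, h⟩ = x * y
  rw [hfx, hgx]

theorem exp_mem (l : ℂ) (x : ℂ) (hx : x ∈ V l) : Complex.exp (l * x) ∈ V l := by
  obtain ⟨n, i, h, g, hg, rfl⟩ := hx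
  obtain ⟨G, hG, hG'⟩ := g.2
  refine ⟨n + 1, i, h, ⟨fun z => Complex.exp (z * g.1 z), fun z => Complex.exp (z * G z),
    (differentiableOn_id.mul hG).cexp, fun z => by simp only [hG']⟩, ?_, rfl⟩
  exact Or.inr (Or.inr (Or.inr (Or.inr (Or.inl ⟨g, hg, fun z => rfl⟩))))

theorem log_mem (l : ℂ) (w : ℂ) (hw : Complex.exp (l * w) ∈ V l) : w ∈ V l := by
  obtain ⟨n, i, h, g, hg, hgx⟩ := hw
  obtain ⟨G, hG, hG'⟩ := g.2
  have hl : l ≠ 0 := ne_zero_of_mem i h
  have hGl : G l = Complex.exp (l * w) := by rw [← hgx, hG' ⟨l, h⟩]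
  have hG0 : G l ≠ 0 := by rw [hGl]; exact Complex.exp_ne_zero _
  have hGd : DifferentiableAt ℂ G l := hG.differentiableAt ((isOpen_D i).mem_nhds h)
  have hcont : ContinuousAt (fun z => G z / G l) l := hGd.continuousAt.div_const _
  have hslit : ∀ᶠ z in 𝓝 l, G z / G l ∈ Complex.slitPlane := by
    have h1 : G l / G l ∈ Complex.slitPlane := by
      rw [div_self hG0]; exact Complex.one_mem_slitPlane
    exact hcont.eventually (Complex.isOpen_slitPlane.mem_nhds h1)
  obtain ⟨k, hk, hkU⟩ := exists_idx l hl ({z | G z / G l ∈ Complex.slitPlane} ∩ D i)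
    (inter_mem hslit ((isOpen_D i).mem_nhds h))
  have hki : D k ⊆ D i := fun z hz => (hkU hz).2
  obtain ⟨f, hf, hfx⟩ := restr n k i hki g hg
  set L : ℂ → ℂ := fun z => (l * w + Complex.log (G z / G l)) / z with hL
  have hLd : DifferentiableOn ℂ L (D k) := by
    intro z hz
    have h1 : DifferentiableAt ℂ G z := hG.differentiableAt ((isOpen_D i).mem_nhds (hki hz))
    have h2 : DifferentiableAt ℂ (fun z => Complex.log (G z / G l)) z :=
      (h1.div_const _).clog (hkU hz).1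
    exact ((h2.const_add _).div differentiableAt_id (ne_zero_of_mem k hz)).differentiableWithinAt
  refine ⟨n + 2, k, hk, ⟨fun z => L z, L, hLd, fun z => rfl⟩, ?_, ?_⟩
  · refine Or.inr (Or.inr (Or.inr (Or.inr (Or.inr (Or.inl ⟨f, hf, fun z => ?_⟩)))))
    have hz0 : (z : ℂ) ≠ 0 := ne_zero_of_mem k z.2
    have hGz : G z / G l ≠ 0 := Complex.slitPlane_ne_zero (hkU z.2).1
    show Complex.exp (z * L z) = f.1 z
    rw [hfx, hG']
    simp only
    rw [hL]
    simp only
    rw [mul_div_cancel₀ _ hz0, Complex.exp_add, Complex.exp_log hGz, ← hGl]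
    field_simp
  · show L l = w
    rw [hL]
    simp only
    rw [div_self hG0, Complex.log_one, add_zero]
    field_simp

/-- Simple roots of polynomials with coefficients in `V l` belong to `V l`. -/
theorem root_mem (l : ℂ) (hl : l ≠ 0) (p : ℂ[X]) (hp : ∀ k, p.coeff k ∈ V l) (x : ℂ)
    (hx : p.eval x = 0) (hx' : p.derivative.eval x ≠ 0) : x ∈ V l := by
  classical
  have hp0 : p ≠ 0 := by
    rintro rfl
    simp at hx'
  obtain ⟨n, i, hi, hh⟩ := common l hl (p.natDegree + 1) p.coeff (fun t _ => hp t)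
  choose! f hf hfx using hh
  have hrep : ∀ t, ∃ F : ℂ → ℂ, DifferentiableOn ℂ F (D i) ∧ ∀ z : D i, (f t).1 z = F z :=
    fun t => (f t).2
  choose F hF hFf using hrep
  set d := p.natDegree with hd
  set Ψ : ℂ × ℂ → ℂ := fun u => ∑ t ∈ Finset.range (d + 1), F t u.1 * u.2 ^ t with hΨ
  have hFl : ∀ t < d + 1, F t l = p.coeff t := by
    intro t ht
    rw [← hfx t ht, hFf t]
  have hcd : ContDiffAt ℂ 1 Ψ (l, x) := by
    rw [hΨ]
    refine ContDiffAt.sum fun t _ => ?_
    refine ContDiffAt.mul ?_ (contDiffAt_snd.pow t)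
    have h1 : ContDiffAt ℂ 1 (F t) l :=
      ((hF t).analyticAt ((isOpen_D i).mem_nhds hi)).contDiffAt
    exact h1.comp (l, x) contDiffAt_fst
  have hΨl : ∀ w, Ψ (l, w) = p.eval w := by
    intro w
    rw [hΨ, Polynomial.eval_eq_sum_range]
    simp only
    refine Finset.sum_congr rfl fun t ht => ?_
    rw [Finset.mem_range] at ht
    rw [hFl t ht]
  have hder : (fderiv ℂ Ψ (l, x)).comp (ContinuousLinearMap.inr ℂ ℂ ℂ) 1 =
      p.derivative.eval x := by
    have h1 : HasFDerivAt Ψ (fderiv ℂ Ψ (l, x)) (l, x) :=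
      (hcd.differentiableAt one_ne_zero).hasFDerivAt
    have h2 : HasFDerivAt (fun w : ℂ => (l, w)) (ContinuousLinearMap.inr ℂ ℂ ℂ) x :=
      hasFDerivAt_prodMk_right l x
    have h3 := (HasFDerivAt.comp x h1 h2).hasDerivAt
    have h4 : (Ψ ∘ fun w : ℂ => (l, w)) = fun w => p.eval w := by
      funext w; exact hΨl w
    rw [h4] at h3
    exact h3.unique (p.hasDerivAt x)
  have hinv : ((fderiv ℂ Ψ (l, x)).comp (ContinuousLinearMap.inr ℂ ℂ ℂ)).IsInvertible := by
    refine ⟨ContinuousLinearEquiv.unitsEquivAut ℂ (Units.mk0 _ hx'), ?_⟩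
    ext
    rw [hder]
    simp
  have hΨ0 : Ψ (l, x) = 0 := by rw [hΨl, hx]
  set ψ := hcd.implicitFunction one_ne_zero hinv with hψ
  have hψl : ψ l = x := hcd.implicitFunction_apply_self one_ne_zero hinv
  have hψe : ∀ᶠ z in 𝓝 l, Ψ (z, ψ z) = 0 := by
    have := hcd.eventually_apply_implicitFunction one_ne_zero hinv
    rw [hΨ0] at this
    exact this
  have hψd : ∀ᶠ z in 𝓝 l, DifferentiableAt ℂ ψ z := by
    have h1 : ContDiffAt ℂ 1 ψ l := hcd.contDiffAt_implicitFunction one_ne_zero hinv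
    filter_upwards [h1.eventually (by norm_num)] with z hz
    exact hz.differentiableAt one_ne_zero
  obtain ⟨k, hk, hkU⟩ := exists_idx l hl ({z | Ψ (z, ψ z) = 0 ∧ DifferentiableAt ℂ ψ z} ∩ D i)
    (inter_mem (hψe.and hψd) ((isOpen_D i).mem_nhds hi))
  have hki : D k ⊆ D i := fun z hz => (hkU hz).2
  have hres : ∀ t, ∃ g : A (D k), (t < d + 1 → g ∈ Phi (n + 1) k) ∧
      ∀ z : D k, g.1 z = F t z := by
    intro t
    by_cases ht : t < d + 1
    · obtain ⟨g, hg, hgx⟩ := restr n k i hki (f t) (hf t ht)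
      exact ⟨g, fun _ => hg, fun z => by rw [hgx, hFf]⟩
    · exact ⟨⟨fun z => F t z, F t, (hF t).mono hki, fun z => rfl⟩, fun h => absurd h ht,
        fun z => rfl⟩
  choose g hg hgF using hres
  set G : A (D k) := ⟨fun z => ψ z, ψ, fun z hz => (hkU hz).1.2.differentiableWithinAt,
    fun z => rfl⟩ with hG
  set q : Polynomial (A (D k)) := ∑ t ∈ Finset.range (d + 1), C (g t) * X ^ t with hq
  have hqc : ∀ t, q.coeff t = if t < d + 1 then g t else 0 := by
    intro t
    rw [hq, finsetSum_coeff]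
    simp only [coeff_C_mul, coeff_X_pow]
    by_cases ht : t < d + 1
    · rw [if_pos ht, Finset.sum_eq_single t]
      · simp
      · intro s _ hs
        rw [if_neg (Ne.symm hs), mul_zero]
      · intro h
        exact absurd (Finset.mem_range.2 ht) h
    · rw [if_neg ht]
      refine Finset.sum_eq_zero fun s hs => ?_
      rw [Finset.mem_range] at hs
      rw [if_neg (by omega), mul_zero]
  refine ⟨n + 2, k, hk, G, ?_, hψl⟩
  refine Or.inr (Or.inr (Or.inr (Or.inr (Or.inr (Or.inr ⟨q, ?_, ?_, ?_⟩)))))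
  · intro h0
    have h1 : q.coeff d = 0 := by rw [h0, coeff_zero]
    rw [hqc, if_pos (Nat.lt_succ_self d)] at h1
    have h2 := hgF d ⟨l, hk⟩
    rw [h1] at h2
    have h3 : F d l = p.coeff d := hFl d (Nat.lt_succ_self d)
    have h4 : p.coeff d = 0 := by
      rw [← h3]; exact h2.symm
    rw [hd, coeff_natDegree, leadingCoeff_eq_zero] at h4
    exact hp0 h4
  · intro t
    rw [hqc]
    split_ifs with ht
    · exact hg t ht
    · have : (0 : A (D k)) ∈ Phi 0 k := ⟨0, by
        apply Subtype.ext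
        funext z
        simp [cst]⟩
      exact Phi_mono (Nat.zero_le _) k this
  · apply Subtype.ext
    funext z
    rw [hq, eval_finsetSum]
    have h1 : ∀ t, ((eval G (C (g t) * X ^ t) : A (D k)) : D k → ℂ) z = F t z * ψ z ^ t := by
      intro t
      rw [eval_mul, eval_C, eval_pow, eval_X]
      show (g t).1 z * (ψ z) ^ t = _
      rw [hgF]
    have h2 : ((∑ t ∈ Finset.range (d + 1), eval G (C (g t) * X ^ t) : A (D k)) : D k → ℂ) z =
        ∑ t ∈ Finset.range (d + 1), ((eval G (C (g t) * X ^ t) : A (D k)) : D k → ℂ) z := by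
      rw [AddSubmonoidClass.coe_finsetSum, Finset.sum_apply]
    rw [h2, Finset.sum_congr rfl fun t _ => h1 t]
    exact (hkU z.2).1.1


theorem neg_mem (l : ℂ) (hl : l ≠ 0) (x : ℂ) (hx : x ∈ V l) : -x ∈ V l := by
  have h := mul_mem l hl _ x (rat_mem l hl (-1)) hx
  simpa using h

theorem inv_mem (l : ℂ) (hl : l ≠ 0) (x : ℂ) (hx : x ∈ V l) : x⁻¹ ∈ V l := by
  rcases eq_or_ne x 0 with h0 | h0
  · rw [h0, inv_zero]
    simpa using rat_mem l hl 0
  · refine root_mem l hl (C x * X + C (-1)) ?_ x⁻¹ ?_ ?_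
    · intro k
      have h00 : (0 : ℂ) ∈ V l := by simpa using rat_mem l hl 0
      have h1 : (-1 : ℂ) ∈ V l := by simpa using rat_mem l hl (-1)
      rcases k with _ | _ | k
      · simpa using h1
      · have : (C x * X + C (-1) : ℂ[X]).coeff (0 + 1) = x := by
          rw [coeff_add, coeff_C_mul, coeff_X, coeff_C]
          simp
        rw [this]; exact hx
      · have : (C x * X + C (-1) : ℂ[X]).coeff (k + 1 + 1) = 0 := by
          rw [coeff_add, coeff_C_mul, coeff_X, coeff_C]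
          simp
        rw [this]; exact h00
    · simp [h0]
    · simpa using h0

/-- The field of values. -/
def K (l : ℂ) (hl : l ≠ 0) : IntermediateField ℚ ℂ where
  carrier := V l
  mul_mem' := fun hx hy => mul_mem l hl _ _ hx hy
  one_mem' := by simpa using rat_mem l hl 1
  add_mem' := fun hx hy => add_mem l hl _ _ hx hy
  zero_mem' := by simpa using rat_mem l hl 0
  algebraMap_mem' := fun q => by simpa using rat_mem l hl q
  inv_mem' := fun x hx => inv_mem l hl x hx

theorem mem_K (l : ℂ) (hl : l ≠ 0) (x : ℂ) : x ∈ K l hl ↔ x ∈ V l := Iff.rfl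

theorem alg_mem (l : ℂ) (hl : l ≠ 0) (x : ℂ) (hx : IsAlgebraic (K l hl) x) : x ∈ V l := by
  have hint := hx.isIntegral
  have hirr := minpoly.irreducible hint
  have hsep : (minpoly (K l hl) x).Separable := hirr.separable
  refine root_mem l hl ((minpoly (K l hl) x).map (algebraMap (K l hl) ℂ)) ?_ x ?_ ?_
  · intro k
    rw [coeff_map]
    exact ((minpoly (K l hl) x).coeff k).2
  · rw [eval_map_algebraMap]
    exact minpoly.aeval _ _
  · rw [derivative_map, eval_map_algebraMap]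
    exact hsep.aeval_derivative_ne_zero (minpoly.aeval _ _)

/-- Elements algebraic over a field generated by elements of `V l` belong to `V l`. -/
theorem alg_adjoin_mem (l : ℂ) (hl : l ≠ 0) (S : Set ℂ) (hS : S ⊆ V l) (x : ℂ)
    (hx : IsAlgebraic (IntermediateField.adjoin ℚ S) x) : x ∈ V l := by
  have hle : IntermediateField.adjoin ℚ S ≤ K l hl := IntermediateField.adjoin_le_iff.2 hS
  apply alg_mem l hl x
  obtain ⟨p, hp, hpx⟩ := hx
  refine ⟨p.map (IntermediateField.inclusion hle).toRingHom, ?_, ?_⟩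
  · rw [Ne, Polynomial.map_eq_zero_iff]
    · exact hp
    · exact (IntermediateField.inclusion hle).injective
  · rw [aeval_def, eval₂_map]
    rw [aeval_def] at hpx
    exact hpx

/-- The constants of the family. -/
def Z : Set ℂ := {a | ∃ n, ∃ i : Idx, cst (D i) a ∈ Phi n i}

theorem countable_Z : Z.Countable := by
  have : Z ⊆ ⋃ n : ℕ, ⋃ i : Idx, {a | cst (D i) a ∈ Phi n i} := by
    rintro a ⟨n, i, h⟩
    simp only [mem_iUnion]
    exact ⟨n, i, h⟩
  refine Countable.mono this (countable_iUnion fun n => countable_iUnion fun i => ?_)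
  refine MapsTo.countable_of_injOn (f := fun a => cst (D i) a) (t := Phi n i) (fun a ha => ha) ?_
    (countable_Phi n i)
  intro a _ b _ hab
  exact congrFun (congrArg Subtype.val hab) ⟨ctr i, ctr_mem i⟩

/-- For `a` outside a countable set there are only countably many `l` with `a ∈ V l`. -/
theorem countable_l (a : ℂ) (ha : a ∉ Z) : {l | a ∈ V l}.Countable := by
  have : {l | a ∈ V l} ⊆ ⋃ n : ℕ, ⋃ i : Idx, ⋃ g ∈ Phi n i,
      {l | ∃ h : l ∈ D i, g.1 ⟨l, h⟩ = a} := by
    rintro l ⟨n, i, h, g, hg, hgl⟩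
    simp only [mem_iUnion]
    exact ⟨n, i, g, hg, h, hgl⟩
  refine Countable.mono this (countable_iUnion fun n => countable_iUnion fun i =>
    (countable_Phi n i).biUnion fun g hg => ?_)
  obtain ⟨G, hG, hG'⟩ := g.2
  have hGa := hG.analyticOnNhd (isOpen_D i)
  rcases hGa.eqOn_or_eventually_ne_of_preconnected
    (analyticOnNhd_const (v := a)) (preconn_D i) with h | h
  · exfalso
    apply ha
    refine ⟨n, i, ?_⟩
    have : cst (D i) a = g := by
      apply Subtype.ext
      funext z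
      rw [hG', h z.2]
      rfl
    rw [this]
    exact hg
  · have h2 : {l | ∃ h : l ∈ D i, g.1 ⟨l, h⟩ = a} = {x | G x ≠ a}ᶜ ∩ D i := by
      ext l
      simp only [mem_ofPred_eq, mem_inter_iff, mem_compl_iff, not_not]
      constructor
      · rintro ⟨h, hl⟩
        exact ⟨by rw [← hl, hG'], h⟩
      · rintro ⟨h1, h⟩
        exact ⟨h, by rw [hG', h1]⟩
    rw [h2]
    apply (HereditarilyLindelofSpace.isLindelof _).countable_of_isDiscrete
      (isDiscrete_of_codiscreteWithin _)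
    simpa using! h

end Q247.EL
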